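import Pool.Agent.V11246.CctZ

/-!
# A Cantor completely metrizable K-Loeb space with a cuf base that is not a Loeb space

In a symmetric extension of a model of ZF there is a copy of the set of the sequences of integers,
with the metric topology in which sequences `x`, `y` are close if `x j` and `y j` are congruent
modulo `3 ^ k` for all `j < k`, such that only the permutations that preserve the metric and the
relations `x` and `y` agree below `i` and `x i - y i = z` are used. In the extension the metric is
Cantor complete, the compact sets are finite, and the lexicographic order gives a choice function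
for them, but the closed sets of the sequences that agree with `x` below `k` have no choice
function.
-/

namespace Pool.Agent.Results.MP_fc22d4_lc.KLoebNotLoeb

open FirstOrder FirstOrder.Language
open Pool.Agent.Helper672.Plain (LSet)
open Pool.Agent.H635Amen (ZF)
open Pool.Agent.H310Top (IsTopology IsBase IsCuf)
open Pool.Agent.V11246 (IsCantorCompletelyMetrizable IsKLoeb IsLoeb)

universe u

/-- For every model of ZF there is a model of ZF with a topological space that is Cantor
completely metrizable and a K-Loeb space, has a cuf base, and is not a Loeb space. -/
theorem result (M : Type u) [LSet.Structure M] (h : ZF M) :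
    ∃ (N : Type u) (_ : LSet.Structure N), ZF N ∧ ∃ x t : N, IsTopology t x ∧
      IsCantorCompletelyMetrizable t x ∧ IsKLoeb t x ∧ (∃ b, IsBase b t ∧ IsCuf b) ∧
        ¬ IsLoeb t x := by
  obtain ⟨N, hL, hZ, h1⟩ := Pool.Agent.Helper672.ZFA.V246C.exists_cc M h
  exact ⟨N, hL, hZ, h1⟩

end Pool.Agent.Results.MP_fc22d4_lc.KLoebNotLoeb
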